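import Mathlib
import Pool.Agent.TH497.PW.IntFlow
import Pool.Agent.TH362.FF.Final
import Pool.Agent.TH362.FP.Pos
import Pool.Agent.Y335.FL.Main
import Pool.Agent.Y335.FL.Local11

set_option autoImplicit false

/-!
# Few edge cuts of size three avoiding short cycles (MP_9f8812_co)

Let `G` be a bridgeless multigraph and let `C_1, ..., C_m` be cycles, each with at most eleven edges
outside the union of the earlier ones; let `F` be the union.  If there are no 32 pairwise disjoint
vertex sets with pairwise different boundaries of size three which avoid `F`, then `G` has a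
nowhere-zero 5-flow.

Proof.  Circuits with at most eleven edges are contractible for nowhere-zero `Z_5`-flows (integer
certificates over all set partitions of the terminals, evaluated by the kernel), so a flow of `G`
which is nonzero off `F` can be changed into a nowhere-zero flow; a flow of `G / F` extends to such
a flow.

The theorem is stated for flows and for the chromatic number of the bond matroid of `G`, a binary
matroid without a minor isomorphic to `M(K_5)`, which is loopless since `G` has no bridge.
-/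

namespace Pool.Agent.Results.MP_9f8812_co.ContractedThreeCuts

open Pool.Agent.TH497.PW

variable {V E W : Type}

/-- The edges with exactly one end in `Y`. -/
def boundary [DecidableEq V] [Fintype E] (src dst : E → V) (Y : Finset V) : Finset E :=
  Finset.univ.filter (fun e => ¬ (src e ∈ Y ↔ dst e ∈ Y))

/-- Kirchhoff's law. -/
def IsFlow [DecidableEq V] [Fintype E] (src dst : E → V) (f : E → ℤ) : Prop :=
  ∀ v : V, ∑ e ∈ Finset.univ.filter (fun e => src e = v), f e
    = ∑ e ∈ Finset.univ.filter (fun e => dst e = v), f e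

/-- `C` is a cycle: the support of an integer flow with the values `0`, `1` and `-1`. -/
def IsCycle [DecidableEq V] [Fintype E] (src dst : E → V) (C : Finset E) : Prop :=
  ∃ z : E → ℤ, IsFlow src dst z ∧ (∀ e, z e = 0 ∨ z e = 1 ∨ z e = -1) ∧ ∀ e, z e ≠ 0 ↔ e ∈ C

/-- The number of the connected components of the graph with the vertices `V` and the edges `A`. -/
noncomputable def components (src dst : E → V) (A : Finset E) : ℕ :=
  Nat.card (SimpleGraph.fromRel
    (fun u v : V => ∃ e ∈ A, src e = u ∧ dst e = v)).ConnectedComponent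

/-- The rank of `A` in the cycle matroid of the graph. -/
noncomputable def cycleRank [Fintype V] (src dst : E → V) (A : Finset E) : ℕ :=
  Fintype.card V - components src dst A

/-- The rank of `A` in the bond matroid of the graph, the dual of the cycle matroid:
`|A| + r(E \ A) - r(E)`. -/
noncomputable def bondRank [Fintype V] [Fintype E] [DecidableEq E] (src dst : E → V)
    (A : Finset E) : ℕ :=
  A.card + cycleRank src dst Aᶜ - cycleRank src dst Finset.univ

/-- The characteristic polynomial of the bond matroid, `∑ (-1)^|A| x^(r*(E) - r*(A))`. -/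
noncomputable def characteristic [Fintype V] [Fintype E] [DecidableEq E] (src dst : E → V)
    (x : ℤ) : ℤ :=
  ∑ A : Finset E, (-1) ^ A.card * x ^ (bondRank src dst Finset.univ - bondRank src dst A)

/-- The chromatic number of the bond matroid: the least positive integer at which the
characteristic polynomial is positive. -/
noncomputable def chromaticNumber [Fintype V] [Fintype E] [DecidableEq E] (src dst : E → V) : ℕ :=
  sInf {k : ℕ | 0 < k ∧ 0 < characteristic src dst k}

theorem isFlow_iff [DecidableEq V] [Fintype E] (src dst : E → V) (f : E → ℤ) :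
    IsFlow src dst f ↔
      ∀ v, ∑ e, f e * ((if src e = v then 1 else 0) - (if dst e = v then 1 else 0)) = 0 := by
  unfold IsFlow
  refine forall_congr' fun v => ?_
  rw [Finset.sum_filter, Finset.sum_filter, ← sub_eq_zero, ← Finset.sum_sub_distrib]
  have : ∀ e, (if src e = v then f e else 0) - (if dst e = v then f e else 0)
      = f e * ((if src e = v then 1 else 0) - (if dst e = v then 1 else 0)) := by
    intro e
    by_cases h1 : src e = v <;> by_cases h2 : dst e = v <;> simp [h1, h2]
  rw [Finset.sum_congr rfl (fun e _ => this e)]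

theorem nzf [Fintype V] [DecidableEq V] [Fintype E] [DecidableEq E] (src dst : E → V)
    (h : Pool.Agent.TH676.Z.FlowOn src dst ∅ ∅) : NZF src dst := by
  obtain ⟨f, h1, _, h3⟩ := h
  refine ⟨f, fun e => h3 e (Finset.notMem_empty _) (Finset.notMem_empty _), fun x => ?_⟩
  rw [← h1 x]
  unfold Pool.Agent.TH676.Z.bd
  refine Finset.sum_congr rfl fun e _ => ?_
  unfold ic
  by_cases h4 : src e = x <;> by_cases h5 : dst e = x <;> simp [h4, h5]

theorem chromatic [Fintype V] [Fintype E] [DecidableEq E] (src dst : E → V)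
    (h : 0 < characteristic src dst (5 : ℕ)) :
    0 < chromaticNumber src dst ∧ chromaticNumber src dst ≤ 5 := by
  have h5 : 5 ∈ {k : ℕ | 0 < k ∧ 0 < characteristic src dst k} := ⟨by norm_num, h⟩
  exact ⟨(Nat.sInf_mem ⟨5, h5⟩).1, Nat.sInf_le h5⟩

/-- the reduction modulo five of a flow with values in `{0, 1, -1}` -/
theorem mod5 [Fintype V] [DecidableEq V] [Fintype E] [DecidableEq E] (src dst : E → V)
    (C : Finset E) (h : IsCycle src dst C) :
    ∃ z : E → ZMod 5, (∀ v, Pool.Agent.TH676.Z.bd src dst z v = 0) ∧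
      (∀ e, z e = 0 ∨ z e = 1 ∨ z e = -1) ∧ ∀ e, z e ≠ 0 ↔ e ∈ C := by
  obtain ⟨z, h1, h2, h3⟩ := h
  refine ⟨fun e => ((z e : ℤ) : ZMod 5), fun v => ?_, fun e => ?_, fun e => ?_⟩
  · have h4 := h1 v
    rw [Finset.sum_filter, Finset.sum_filter, ← sub_eq_zero, ← Finset.sum_sub_distrib] at h4
    have h5 := congrArg (fun t : ℤ => (t : ZMod 5)) h4
    simp only [Int.cast_sum, Int.cast_sub, Int.cast_zero] at h5
    refine Eq.trans ?_ h5
    unfold Pool.Agent.TH676.Z.bd
    rw [Finset.sum_sub_distrib, Finset.sum_sub_distrib]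
    congr 1 <;>
    · refine Finset.sum_congr rfl fun e _ => ?_
      split_ifs <;> simp
  · rcases h2 e with h | h | h <;> simp [h]
  · rw [← h3 e]
    have h10 : (1 : ZMod 5) ≠ 0 := by decide
    rcases h2 e with h | h | h <;> simp [h, h10]

theorem finish [Fintype V] [DecidableEq V] [Fintype E] [DecidableEq E] (src dst : E → V)
    (h : Pool.Agent.TH676.Z.FlowOn src dst ∅ ∅) :
    (∃ f : E → ℤ, IsFlow src dst f ∧ ∀ e, 1 ≤ |f e| ∧ |f e| ≤ 4) ∧
      0 < chromaticNumber src dst ∧ chromaticNumber src dst ≤ 5 := by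
  obtain ⟨F, hF, hF0⟩ := int_flow src dst (nzf src dst h)
  have hF1 := (isFlow_iff src dst F).mpr hF0
  exact ⟨⟨F, hF1, hF⟩, chromatic src dst
    (Pool.Agent.TH362.FP.chr_pos src dst F hF hF1 5 le_rfl)⟩

theorem kirchhoff_iff {V E R : Type} [CommRing R] [DecidableEq V] [Fintype E] (src dst : E → V)
    (f : E → R) : (∀ v : V, ∑ e ∈ Finset.univ.filter (fun e => src e = v), f e
      = ∑ e ∈ Finset.univ.filter (fun e => dst e = v), f e) ↔
      ∀ v, ∑ e, f e * ((if src e = v then 1 else 0) - (if dst e = v then 1 else 0)) = 0 := by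
  refine forall_congr' fun v => ?_
  rw [Finset.sum_filter, Finset.sum_filter, ← sub_eq_zero, ← Finset.sum_sub_distrib]
  have : ∀ e, (if src e = v then f e else 0) - (if dst e = v then f e else 0)
      = f e * ((if src e = v then 1 else 0) - (if dst e = v then 1 else 0)) := by
    intro e
    by_cases h1 : src e = v <;> by_cases h2 : dst e = v <;> simp [h1, h2]
  rw [Finset.sum_congr rfl (fun e _ => this e)]

theorem bd_iff {V E : Type} [Fintype V] [DecidableEq V] [Fintype E] [DecidableEq E]
    (src dst : E → V) (f : E → ZMod 5) :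
    (∀ v : V, ∑ e ∈ Finset.univ.filter (fun e => src e = v), f e
      = ∑ e ∈ Finset.univ.filter (fun e => dst e = v), f e) ↔
      ∀ v, Pool.Agent.TH676.Z.bd src dst f v = 0 := by
  rw [kirchhoff_iff]
  refine forall_congr' fun v => ?_
  unfold Pool.Agent.TH676.Z.bd
  rw [Finset.sum_congr rfl]
  intro e _
  by_cases h1 : src e = v <;> by_cases h2 : dst e = v <;> simp [h1, h2]

/-- an integer flow with values `1, ..., 4` in absolute value gives a `Z_5`-flow -/
theorem mod5' {V E : Type} [Fintype V] [DecidableEq V] [Fintype E] [DecidableEq E]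
    (src dst : E → V) (f : E → ℤ) (hf : ∀ e, 1 ≤ |f e| ∧ |f e| ≤ 4)
    (h : ∀ v : V, ∑ e ∈ Finset.univ.filter (fun e => src e = v), f e
      = ∑ e ∈ Finset.univ.filter (fun e => dst e = v), f e) :
    Pool.Agent.TH676.Z.FlowOn src dst ∅ ∅ := by
  refine ⟨fun e => ((f e : ℤ) : ZMod 5), (bd_iff src dst _).mp fun v => ?_,
    fun e he => absurd he (Finset.notMem_empty _), fun e _ _ he => ?_⟩
  · have h4 := congrArg (fun t : ℤ => (t : ZMod 5)) (h v)
    simpa using h4
  · have h5 : ((f e : ℤ) : ZMod 5) = 0 := he
    rw [ZMod.intCast_zmod_eq_zero_iff_dvd] at h5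
    obtain ⟨h1, h2⟩ := hf e
    have h3 : ((5 : ℕ) : ℤ) ∣ |f e| := (dvd_abs _ _).2 h5
    have h4 := Int.le_of_dvd (by omega) h3
    push_cast at h4
    omega

/-- the theorem for flows -/
theorem flowOn {V E : Type} [Fintype V] [DecidableEq V] [Fintype E] [DecidableEq E]
    (src dst : E → V) (k : ℕ) (C : Fin k → Finset E)
    (hb : ∀ Y : Finset V, (Finset.univ.filter (fun e => ¬ (src e ∈ Y ↔ dst e ∈ Y))).card ≠ 1)
    (hC : ∀ i, ∃ z : E → ZMod 5, (∀ v, Pool.Agent.TH676.Z.bd src dst z v = 0) ∧
      (∀ e, z e = 0 ∨ z e = 1 ∨ z e = -1) ∧ ∀ e, z e ≠ 0 ↔ e ∈ C i)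
    (hnew : ∀ i, (C i \ (Finset.univ.filter (fun j => j < i)).biUnion C).card ≤ 11)
    (hX : ∀ X : Fin 32 → Finset V, (∀ i j, i ≠ j → Disjoint (X i) (X j)) →
      (∀ i j, i ≠ j → Finset.univ.filter (fun e => ¬ (src e ∈ X i ↔ dst e ∈ X i)) ≠
        Finset.univ.filter (fun e => ¬ (src e ∈ X j ↔ dst e ∈ X j))) →
      (∀ i, Disjoint (Finset.univ.filter (fun e => ¬ (src e ∈ X i ↔ dst e ∈ X i)))
        (Finset.univ.biUnion C)) →
      ∃ i, (Finset.univ.filter (fun e => ¬ (src e ∈ X i ↔ dst e ∈ X i))).card ≠ 3) :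
    Pool.Agent.TH676.Z.FlowOn src dst ∅ ∅ := by
  classical
  obtain ⟨W, hW1, hW2, r, hr, hF, hflow, -⟩ :=
    Pool.Agent.Y335.FL.quot' V E src dst (Finset.univ.biUnion C)
  have hpre : ∀ X : Finset W,
      Finset.univ.filter (fun e => ¬ (src e ∈ Finset.univ.filter (fun x => r x ∈ X) ↔
        dst e ∈ Finset.univ.filter (fun x => r x ∈ X))) =
      Finset.univ.filter (fun e => ¬ ((r ∘ src) e ∈ X ↔ (r ∘ dst) e ∈ X)) := by
    intro X
    refine Finset.filter_congr fun e _ => ?_
    simp
  obtain ⟨f, hf, hf0⟩ := Pool.Agent.TH362.FF.five32 (r ∘ src) (r ∘ dst)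
    (fun Y => by rw [← hpre Y]; exact hb _) (fun X hdis hne => by
      obtain ⟨i, hi⟩ := hX (fun i => Finset.univ.filter (fun x => r x ∈ X i)) (by
        intro i j hij
        have := hdis i j hij
        rw [Finset.disjoint_left] at this ⊢
        intro x hx hx'
        simp only [Finset.mem_filter, Finset.mem_univ, true_and] at hx hx'
        exact this hx hx') (by
        intro i j hij
        rw [hpre, hpre]
        exact hne i j hij) (by
        intro i
        rw [hpre, Finset.disjoint_left]
        intro e he heF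
        rw [Finset.mem_filter] at he
        apply he.2
        simp only [Function.comp, hF e heF])
      rw [hpre] at hi
      exact ⟨i, hi⟩)
  have h1 := hflow ∅ (mod5' (r ∘ src) (r ∘ dst) f hf hf0)
  rw [Finset.union_empty] at h1
  exact Pool.Agent.Y335.FL.lift_all V E src dst k C hC hnew h1

theorem result :
    ∀ (V E : Type) [Fintype V] [DecidableEq V] [Fintype E] [DecidableEq E]
      (src dst : E → V) (m : ℕ) (C : Fin m → Finset E),
      (∀ i, IsCycle src dst (C i)) →
      (∀ i, (C i \ (Finset.univ.filter (fun j => j < i)).biUnion C).card ≤ 11) →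
      (∀ X : Fin 32 → Finset V, (∀ i j, i ≠ j → Disjoint (X i) (X j)) →
        (∀ i j, i ≠ j → boundary src dst (X i) ≠ boundary src dst (X j)) →
        (∀ i, Disjoint (boundary src dst (X i)) (Finset.univ.biUnion C)) →
        ∃ i, (boundary src dst (X i)).card ≠ 3) →
      (∀ Y : Finset V, (boundary src dst Y).card ≠ 1) →
      (∃ f : E → ℤ, IsFlow src dst f ∧ ∀ e, 1 ≤ |f e| ∧ |f e| ≤ 4) ∧
      0 < chromaticNumber src dst ∧ chromaticNumber src dst ≤ 5 := by
  intro V E _ _ _ _ src dst m C hC hnew hX hb
  exact finish src dst (flowOn src dst m C hb (fun i => mod5 src dst (C i) (hC i)) hnew hX)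

end Pool.Agent.Results.MP_9f8812_co.ContractedThreeCuts
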