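import Mathlib
import Pool.Agent.TH497.PW.IntFlow
import Pool.Agent.TH497.TW.Std
import Pool.Agent.TH362.FP.Pos
import Pool.Agent.Y335.FL.Main
import Pool.Agent.Y335.FL.Ahl
import Pool.Agent.Y335.FL.Ex17
import Pool.Agent.Y335.FL.Iso
import Pool.Agent.Y335.FL.Order
import Pool.Agent.Y335.FL.Tw
import Pool.Agent.Helper335.Rel.Main

set_option autoImplicit false

/-!
# Treewidth at most seventeen after the contraction of short cycles (MP_9f8812_co)

Let `G` be a bridgeless multigraph and let `C_1, ..., C_m` be cycles, each with at most eleven edges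
outside the union of the earlier ones; let `F` be the union.  If `G / F` has treewidth at most
`17`, then `G` has a nowhere-zero 5-flow.

Proof.  Circuits with at most eleven edges are contractible for nowhere-zero `Z_5`-flows (integer
certificates over all set partitions of the terminals, evaluated by the kernel), so a flow of `G`
which is nonzero off `F` can be changed into a nowhere-zero flow; a flow of `G / F` extends to such
a flow.

The theorem is stated for flows and for the chromatic number of the bond matroid of `G`, a binary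
matroid without a minor isomorphic to `M(K_5)`, which is loopless since `G` has no bridge.
-/

namespace Pool.Agent.Results.MP_9f8812_co.ContractedTreewidth

open Pool.Agent.TH497.PW Pool.Agent.TH497.TW

variable {V E W ι : Type}

/-- The edges with exactly one end in `Y`. -/
def boundary [DecidableEq V] [Fintype E] (src dst : E → V) (Y : Finset V) : Finset E :=
  Finset.univ.filter (fun e => ¬ (src e ∈ Y ↔ dst e ∈ Y))

/-- Kirchhoff's law. -/
def IsFlow [DecidableEq V] [Fintype E] (src dst : E → V) (f : E → ℤ) : Prop :=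
  ∀ v : V, ∑ e ∈ Finset.univ.filter (fun e => src e = v), f e
    = ∑ e ∈ Finset.univ.filter (fun e => dst e = v), f e

/-- `C` is a cycle: the support of an integer flow with the values `0`, `1` and `-1`. -/
def IsCycle [DecidableEq V] [Fintype E] (src dst : E → V) (C : Finset E) : Prop :=
  ∃ z : E → ℤ, IsFlow src dst z ∧ (∀ e, z e = 0 ∨ z e = 1 ∨ z e = -1) ∧ ∀ e, z e ≠ 0 ↔ e ∈ C

/-- The map `r` identifies only vertices which are joined by a path with edges in `F`; if `r` is
the map to the components of the graph `(V, F)` then `r ∘ src`, `r ∘ dst` is the graph `G / F` (with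
the edges in `F` as loops). -/
def JoinedIn (src dst : E → V) (F : Finset E) (r : V → W) : Prop :=
  ∀ x y, r x = r y → (SimpleGraph.fromRel
    (fun u v : V => ∃ e ∈ F, src e = u ∧ dst e = v)).Reachable x y

/-- The sets `X i`, for the nodes `i` of the graph `T`, are a tree decomposition of width at most
`w`: `T` is a tree, every edge has both ends in one of the sets, a vertex in `X i` and `X j` is in
`X k` for all `k` on the path of `T` from `i` to `j`, and the sets have at most `w + 1` elements. -/
structure IsTreeDecomposition [DecidableEq V] (src dst : E → V) (w : ℕ) (T : SimpleGraph ι)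
    (X : ι → Finset V) : Prop where
  tree : T.IsTree
  edge : ∀ e, ∃ i, src e ∈ X i ∧ dst e ∈ X i
  path : ∀ (i j : ι) (p : T.Walk i j), p.IsPath → ∀ k ∈ p.support, X i ∩ X j ⊆ X k
  width : ∀ i, (X i).card ≤ w + 1

/-- The number of the connected components of the graph with the vertices `V` and the edges `A`. -/
noncomputable def components (src dst : E → V) (A : Finset E) : ℕ :=
  Nat.card (SimpleGraph.fromRel
    (fun u v : V => ∃ e ∈ A, src e = u ∧ dst e = v)).ConnectedComponent

/-- The rank of `A` in the cycle matroid of the graph. -/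
noncomputable def cycleRank [Fintype V] (src dst : E → V) (A : Finset E) : ℕ :=
  Fintype.card V - components src dst A

/-- The rank of `A` in the bond matroid of the graph, the dual of the cycle matroid:
`|A| + r(E \ A) - r(E)`. -/
noncomputable def bondRank [Fintype V] [Fintype E] [DecidableEq E] (src dst : E → V)
    (A : Finset E) : ℕ :=
  A.card + cycleRank src dst Aᶜ - cycleRank src dst Finset.univ

/-- The characteristic polynomial of the bond matroid, `∑ (-1)^|A| x^(r*(E) - r*(A))`. -/
noncomputable def characteristic [Fintype V] [Fintype E] [DecidableEq E] (src dst : E → V)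
    (x : ℤ) : ℤ :=
  ∑ A : Finset E, (-1) ^ A.card * x ^ (bondRank src dst Finset.univ - bondRank src dst A)

/-- The chromatic number of the bond matroid: the least positive integer at which the
characteristic polynomial is positive. -/
noncomputable def chromaticNumber [Fintype V] [Fintype E] [DecidableEq E] (src dst : E → V) : ℕ :=
  sInf {k : ℕ | 0 < k ∧ 0 < characteristic src dst k}

theorem isFlow_iff [DecidableEq V] [Fintype E] (src dst : E → V) (f : E → ℤ) :
    IsFlow src dst f ↔
      ∀ v, ∑ e, f e * ((if src e = v then 1 else 0) - (if dst e = v then 1 else 0)) = 0 := by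
  unfold IsFlow
  refine forall_congr' fun v => ?_
  rw [Finset.sum_filter, Finset.sum_filter, ← sub_eq_zero, ← Finset.sum_sub_distrib]
  have : ∀ e, (if src e = v then f e else 0) - (if dst e = v then f e else 0)
      = f e * ((if src e = v then 1 else 0) - (if dst e = v then 1 else 0)) := by
    intro e
    by_cases h1 : src e = v <;> by_cases h2 : dst e = v <;> simp [h1, h2]
  rw [Finset.sum_congr rfl (fun e _ => this e)]

theorem nzf [Fintype V] [DecidableEq V] [Fintype E] [DecidableEq E] (src dst : E → V)
    (h : Pool.Agent.TH676.Z.FlowOn src dst ∅ ∅) : NZF src dst := by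
  obtain ⟨f, h1, _, h3⟩ := h
  refine ⟨f, fun e => h3 e (Finset.notMem_empty _) (Finset.notMem_empty _), fun x => ?_⟩
  rw [← h1 x]
  unfold Pool.Agent.TH676.Z.bd
  refine Finset.sum_congr rfl fun e _ => ?_
  unfold ic
  by_cases h4 : src e = x <;> by_cases h5 : dst e = x <;> simp [h4, h5]

theorem chromatic [Fintype V] [Fintype E] [DecidableEq E] (src dst : E → V)
    (h : 0 < characteristic src dst (5 : ℕ)) :
    0 < chromaticNumber src dst ∧ chromaticNumber src dst ≤ 5 := by
  have h5 : 5 ∈ {k : ℕ | 0 < k ∧ 0 < characteristic src dst k} := ⟨by norm_num, h⟩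
  exact ⟨(Nat.sInf_mem ⟨5, h5⟩).1, Nat.sInf_le h5⟩

/-- the reduction modulo five of a flow with values in `{0, 1, -1}` -/
theorem mod5 [Fintype V] [DecidableEq V] [Fintype E] [DecidableEq E] (src dst : E → V)
    (C : Finset E) (h : IsCycle src dst C) :
    ∃ z : E → ZMod 5, (∀ v, Pool.Agent.TH676.Z.bd src dst z v = 0) ∧
      (∀ e, z e = 0 ∨ z e = 1 ∨ z e = -1) ∧ ∀ e, z e ≠ 0 ↔ e ∈ C := by
  obtain ⟨z, h1, h2, h3⟩ := h
  refine ⟨fun e => ((z e : ℤ) : ZMod 5), fun v => ?_, fun e => ?_, fun e => ?_⟩
  · have h4 := h1 v
    rw [Finset.sum_filter, Finset.sum_filter, ← sub_eq_zero, ← Finset.sum_sub_distrib] at h4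
    have h5 := congrArg (fun t : ℤ => (t : ZMod 5)) h4
    simp only [Int.cast_sum, Int.cast_sub, Int.cast_zero] at h5
    refine Eq.trans ?_ h5
    unfold Pool.Agent.TH676.Z.bd
    rw [Finset.sum_sub_distrib, Finset.sum_sub_distrib]
    congr 1 <;>
    · refine Finset.sum_congr rfl fun e _ => ?_
      split_ifs <;> simp
  · rcases h2 e with h | h | h <;> simp [h]
  · rw [← h3 e]
    have h10 : (1 : ZMod 5) ≠ 0 := by decide
    rcases h2 e with h | h | h <;> simp [h, h10]

theorem finish [Fintype V] [DecidableEq V] [Fintype E] [DecidableEq E] (src dst : E → V)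
    (h : Pool.Agent.TH676.Z.FlowOn src dst ∅ ∅) :
    (∃ f : E → ℤ, IsFlow src dst f ∧ ∀ e, 1 ≤ |f e| ∧ |f e| ≤ 4) ∧
      0 < chromaticNumber src dst ∧ chromaticNumber src dst ≤ 5 := by
  obtain ⟨F, hF, hF0⟩ := int_flow src dst (nzf src dst h)
  have hF1 := (isFlow_iff src dst F).mpr hF0
  exact ⟨⟨F, hF1, hF⟩, chromatic src dst
    (Pool.Agent.TH362.FP.chr_pos src dst F hF hF1 5 le_rfl)⟩

open Pool.Agent.TH676.Z Pool.Agent.Y335.FL in
/-- graphs with tree decompositions with bags of at most 18 vertices -/
theorem flowOn18 [Fintype V] [DecidableEq V] [Fintype E] [DecidableEq E] {src dst : E → V}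
    (h : HasTD 18 src dst) (hb : Br src dst ∅ ∅) : FlowOn src dst ∅ ∅ := by
  by_contra hn
  obtain ⟨s, d, hs, hM⟩ := crit V E (HasTD 18) (Pool.Agent.TH676.Z.mc 18) src dst h hb hn
  obtain ⟨-, hT⟩ := gi_all V E s d hM
  have hG := girth_all V E s d hM
  obtain ⟨In, hB⟩ := bags hs
  have hno := tw (iso (ex17 ahl)) moore V (Adj s d) In
    (fun a b h => ⟨h.1.symm, h.2.imp fun e he => he.symm⟩) (fun a h => h.1 rfl) hG hT hB
  refine hM.nf (flow_of_loops fun e => ?_)
  by_contra he
  exact hno (s e) (d e) ⟨he, e, Or.inl ⟨rfl, rfl⟩⟩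

theorem result :
    ∀ (V E W ι : Type) [Fintype V] [DecidableEq V] [Fintype E] [DecidableEq E] [Fintype W]
      [DecidableEq W] [Fintype ι] (src dst : E → V) (m : ℕ) (C : Fin m → Finset E),
      (∀ i, IsCycle src dst (C i)) →
      (∀ i, (C i \ (Finset.univ.filter (fun j => j < i)).biUnion C).card ≤ 11) →
      ∀ r : V → W, JoinedIn src dst (Finset.univ.biUnion C) r →
      ∀ (T : SimpleGraph ι) (X : ι → Finset W),
      IsTreeDecomposition (r ∘ src) (r ∘ dst) 17 T X →
      (∀ Y : Finset V, (boundary src dst Y).card ≠ 1) →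
      (∃ f : E → ℤ, IsFlow src dst f ∧ ∀ e, 1 ≤ |f e| ∧ |f e| ≤ 4) ∧
      0 < chromaticNumber src dst ∧ chromaticNumber src dst ≤ 5 := by
  intro V E W ι _ _ _ _ _ _ _ src dst m C hC hnew r hr T X hX hb
  have hTD : HasTD 18 (r ∘ src) (r ∘ dst) := HasTD.of_tree hX.tree
    (fun i j p hp k hk v hi hj => hX.path i j p hp k hk (Finset.mem_inter.mpr ⟨hi, hj⟩))
    hX.edge hX.width
  exact finish src dst (Pool.Agent.Helper335.Rel.relative src dst m C
    (fun i => mod5 src dst (C i) (hC i)) hnew r hr
    (flowOn18 hTD (fun Y _ => by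
      rw [Finset.sdiff_empty]
      exact Pool.Agent.Helper335.Rel.br_quot src dst r hb Y)))

end Pool.Agent.Results.MP_9f8812_co.ContractedTreewidth
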